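import Pool.Agent.Lib.MP_99e598_lc.Main

/-! # An attractive set of hyperimmune-free degree computing no 1-random set. -/

namespace Pool.Agent.Results.MP_99e598_lc.AttractiveHIF

open Pool.Agent.AttrHIF

/-- There is a set `A` which is attractive, has hyperimmune-free degree, and does not compute
any `1`-random set. -/
theorem result :
    ∃ A : ℕ → Bool, Attractive A ∧ HyperimmuneFree A ∧
      ∀ R : ℕ → Bool, TuringReducible (charFn R) (charFn A) → ¬ OneRandom R := main

end Pool.Agent.Results.MP_99e598_lc.AttractiveHIF
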